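import Pool.Agent.H37.IS.Stm

set_option autoImplicit false

namespace H37.IS

theorem BA1_proved : S_BA1 := by
  refine ⟨fun M j h => ?_, fun M j h => ?_⟩
  · have h1 := Nat.choose_succ_right_eq M j
    have h2 : M.choose j * (j + 1) ≤ M.choose (j + 1) * (j + 1) := by
      rw [h1]
      exact Nat.mul_le_mul_left _ (by omega)
    exact Nat.le_of_mul_le_mul_right h2 (by omega)
  · have h1 := Nat.choose_succ_right_eq M j
    have h2 : M.choose (j + 1) * (j + 1) ≤ M.choose j * (j + 1) := by
      rw [h1]
      exact Nat.mul_le_mul_left _ (by omega)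
    exact Nat.le_of_mul_le_mul_right h2 (by omega)

end H37.IS
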