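import Pool.Agent.H37.IS.Stm

set_option autoImplicit false

namespace H37.IS

theorem BA2_step (n j : ℕ) (h : n + 1 ≤ 4 * j) : 4 * n.choose j ≤ 3 * (n + 1).choose j := by
  have h1 := Nat.choose_mul_succ_eq n j
  have h2 : (4 * n.choose j) * (n + 1) ≤ (3 * (n + 1).choose j) * (n + 1) := by
    calc (4 * n.choose j) * (n + 1) = 4 * (n.choose j * (n + 1)) := by ring
      _ = (n + 1).choose j * (4 * (n + 1 - j)) := by rw [h1]; ring
      _ ≤ (n + 1).choose j * (3 * (n + 1)) := Nat.mul_le_mul_left _ (by omega)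
      _ = (3 * (n + 1).choose j) * (n + 1) := by ring
  exact Nat.le_of_mul_le_mul_right h2 (by omega)

theorem BA2_proved : S_BA2 := by
  intro N t
  induction t with
  | zero => intro j _ _; simp
  | succ t ih =>
    intro j ht hj
    have h1 := ih j (by omega) hj
    obtain ⟨n, hn⟩ : ∃ n, N - t = n + 1 := ⟨N - t - 1, by omega⟩
    have h2 : N - (t + 1) = n := by omega
    rw [h2]
    rw [hn] at h1
    have h3 := BA2_step n j (by omega)
    calc 4 ^ (t + 1) * n.choose j = 4 ^ t * (4 * n.choose j) := by ring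
      _ ≤ 4 ^ t * (3 * (n + 1).choose j) := Nat.mul_le_mul_left _ h3
      _ = 3 * (4 ^ t * (n + 1).choose j) := by ring
      _ ≤ 3 * (3 ^ t * N.choose j) := Nat.mul_le_mul_left _ h1
      _ = 3 ^ (t + 1) * N.choose j := by ring

end H37.IS
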