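import Pool.Agent.H37.IS.Stm3

/-! Crew IS, batch 3, part DBC (helper55). -/

set_option autoImplicit false

namespace H37.IS

open Finset in
theorem DBC_proved (h1 : S_DBA) (h2 : S_DBB) : S_DOB := by
  intro H _ _ _ Om w q c hD f b Q hb hf hq hQ
  set n : ℝ := (Fintype.card H : ℝ) with hn
  have hn1 : 1 ≤ n := by
    have : 1 ≤ Fintype.card H := Fintype.card_pos
    rw [hn]; exact_mod_cast this
  set r : ℝ := 1 - 1 / (2 * n) with hr
  have hinv : 1 / (2 * n) ≤ 1 := by
    rw [div_le_one (by positivity)]; linarith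
  have hinv0 : 0 < 1 / (2 * n) := by positivity
  have hr0 : 0 ≤ r := by rw [hr]; linarith
  have hr1 : r < 1 := by rw [hr]; linarith
  obtain ⟨g, hg⟩ : ∃ g : ℕ → Finset H → ℝ, g = fun t => (Pst q)^[t] f := ⟨_, rfl⟩
  have hg0 : g 0 = f := by rw [hg]; rfl
  have hgs : ∀ t, g (t + 1) = Pst q (g t) := fun t => by
    rw [hg]; exact Function.iterate_succ_apply' _ _ _
  have hgL : ∀ t, Lp Om c (g t) (b * r ^ t) := by
    intro t
    induction t with
    | zero => rw [hg0, pow_zero, mul_one]; exact hf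
    | succ t ih =>
      rw [hgs, pow_succ, ← mul_assoc]
      exact h1 H Om w q c hD (g t) (b * r ^ t) (by positivity) ih
  obtain ⟨h2a, h2b⟩ := h2 H Om w q c hD
  have hmean : ∀ t, ∑ A ∈ Om, w A * g t A = ∑ A ∈ Om, w A * f A := by
    intro t
    induction t with
    | zero => rw [hg0]
    | succ t ih => rw [hgs, h2a, ih]
  set S : ℝ := ∑ v, c v ^ 2 * Q v with hSdef
  set W : ℝ := ∑ A ∈ Om, w A with hWdef
  set F : ℝ := ∑ A ∈ Om, w A * f A with hFdef
  have hS : 0 ≤ S := Finset.sum_nonneg fun v _ => mul_nonneg (sq_nonneg _) (hQ v)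
  have hW : 0 ≤ W := Finset.sum_nonneg fun A hA => (hD.wpos A hA).le
  have htel : ∀ T : ℕ, ∑ A ∈ Om, w A * (f A * f A) - ∑ A ∈ Om, w A * (f A * g T A) ≤
      b ^ 2 / n * S * W * ∑ t ∈ range T, r ^ t := by
    intro T
    induction T with
    | zero => rw [hg0]; simp
    | succ T ih =>
      have h3 := h2b f (g T) b (b * r ^ T) Q hb (by positivity) hf (hgL T) hq hQ
      rw [← hgs] at h3
      rw [sum_range_succ, mul_add]
      have e : b * (b * r ^ T) / n * S * W = b ^ 2 / n * S * W * r ^ T := by ring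
      have h3' : ∑ A ∈ Om, w A * (f A * g T A) - ∑ A ∈ Om, w A * (f A * g (T + 1) A) ≤
          b * (b * r ^ T) / n * S * W := h3
      linarith
  have hgeo : ∀ T : ℕ, ∑ t ∈ range T, r ^ t ≤ 2 * n := by
    intro T
    have h3 : (∑ t ∈ range T, r ^ t) * (1 - r) = 1 - r ^ T := geom_sum_mul_neg r T
    have h4 : 1 - r = 1 / (2 * n) := by rw [hr]; ring
    rw [h4] at h3
    have h5 : 0 ≤ r ^ T := pow_nonneg hr0 _
    have h6 : (∑ t ∈ range T, r ^ t) = (1 - r ^ T) * (2 * n) := by
      rw [← h3]; field_simp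
    rw [h6]
    nlinarith
  set C : ℝ := ∑ v, c v with hCdef
  have hosc : ∀ (T : ℕ) (A : Finset H), A ∈ Om → |g T A - g T ∅| ≤ b * r ^ T * C := by
    intro T A hA
    have h3 : |g T A - g T ∅| ≤ b * r ^ T * ∑ v ∈ A, c v := by
      revert hA
      induction A using Finset.induction_on with
      | empty => intro _; simp
      | insert a s ha ih =>
        intro hA
        have hs : s ∈ Om := hD.down _ hA s (Finset.subset_insert a s)
        have h4 := hgL T s a ha hA
        rw [Finset.sum_insert ha]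
        have h5 := ih hs
        calc |g T (insert a s) - g T ∅| ≤ |g T (insert a s) - g T s| + |g T s - g T ∅| :=
              abs_sub_le _ _ _
          _ ≤ b * r ^ T * c a + b * r ^ T * ∑ v ∈ s, c v := add_le_add h4 h5
          _ = _ := by ring
    refine h3.trans (mul_le_mul_of_nonneg_left ?_ (by positivity))
    exact Finset.sum_le_sum_of_subset_of_nonneg (Finset.subset_univ A) fun v _ _ => (hD.cpos v).le
  set K : ℝ := W * ((∑ A ∈ Om, w A * |f A|) * (b * C)) + |F| * (W * (b * C)) with hK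
  have hmain : ∀ T : ℕ, W * (∑ A ∈ Om, w A * f A ^ 2) - F ^ 2 ≤
      2 * b ^ 2 * S * W ^ 2 + K * r ^ T := by
    intro T
    have e0 : ∑ A ∈ Om, w A * f A ^ 2 = ∑ A ∈ Om, w A * (f A * f A) :=
      Finset.sum_congr rfl fun A _ => by ring
    have e1 : ∑ A ∈ Om, w A * (f A * g T A) =
        ∑ A ∈ Om, w A * (f A * (g T A - g T ∅)) + g T ∅ * F := by
      rw [hFdef, Finset.mul_sum, ← Finset.sum_add_distrib]
      exact Finset.sum_congr rfl fun A _ => by ring
    have e2 : F = ∑ A ∈ Om, w A * (g T A - g T ∅) + g T ∅ * W := by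
      rw [← hmean T, hWdef, Finset.mul_sum, ← Finset.sum_add_distrib]
      exact Finset.sum_congr rfl fun A _ => by ring
    have d1 : |∑ A ∈ Om, w A * (f A * (g T A - g T ∅))| ≤
        (∑ A ∈ Om, w A * |f A|) * (b * C) * r ^ T := by
      refine (Finset.abs_sum_le_sum_abs _ _).trans ?_
      rw [mul_assoc, Finset.sum_mul]
      refine Finset.sum_le_sum fun A hA => ?_
      rw [abs_mul, abs_mul, abs_of_nonneg (hD.wpos A hA).le, mul_assoc (w A)]
      refine mul_le_mul_of_nonneg_left ?_ (hD.wpos A hA).le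
      refine mul_le_mul_of_nonneg_left ?_ (abs_nonneg _)
      have := hosc T A hA
      linarith
    have d2 : |∑ A ∈ Om, w A * (g T A - g T ∅)| ≤ W * (b * C) * r ^ T := by
      refine (Finset.abs_sum_le_sum_abs _ _).trans ?_
      rw [mul_assoc, hWdef, Finset.sum_mul]
      refine Finset.sum_le_sum fun A hA => ?_
      rw [abs_mul, abs_of_nonneg (hD.wpos A hA).le]
      refine mul_le_mul_of_nonneg_left ?_ (hD.wpos A hA).le
      have := hosc T A hA
      linarith
    have h3 := htel T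
    have h4 : b ^ 2 / n * S * W * ∑ t ∈ range T, r ^ t ≤ b ^ 2 / n * S * W * (2 * n) :=
      mul_le_mul_of_nonneg_left (hgeo T) (by positivity)
    have h5 : b ^ 2 / n * S * W * (2 * n) = 2 * b ^ 2 * S * W := by
      field_simp
    set D1 : ℝ := ∑ A ∈ Om, w A * (f A * (g T A - g T ∅)) with hD1
    set D2 : ℝ := ∑ A ∈ Om, w A * (g T A - g T ∅) with hD2
    rw [e0]
    have h6 : ∑ A ∈ Om, w A * (f A * f A) ≤ 2 * b ^ 2 * S * W + (D1 + g T ∅ * F) := by
      rw [← e1]; linarith
    have h7 : W * ∑ A ∈ Om, w A * (f A * f A) ≤ W * (2 * b ^ 2 * S * W + (D1 + g T ∅ * F)) :=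
      mul_le_mul_of_nonneg_left h6 hW
    have h8 : W * (g T ∅ * F) - F ^ 2 = - (F * D2) := by
      have : g T ∅ * W = F - D2 := by linarith
      calc W * (g T ∅ * F) - F ^ 2 = (g T ∅ * W) * F - F ^ 2 := by ring
        _ = (F - D2) * F - F ^ 2 := by rw [this]
        _ = _ := by ring
    have h9 : W * D1 ≤ W * ((∑ A ∈ Om, w A * |f A|) * (b * C) * r ^ T) :=
      mul_le_mul_of_nonneg_left ((le_abs_self _).trans d1) hW
    have h10 : -(F * D2) ≤ |F| * (W * (b * C) * r ^ T) := by
      calc -(F * D2) ≤ |F * D2| := neg_le_abs _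
        _ = |F| * |D2| := abs_mul _ _
        _ ≤ _ := mul_le_mul_of_nonneg_left d2 (abs_nonneg _)
    have h11 : K * r ^ T = W * ((∑ A ∈ Om, w A * |f A|) * (b * C) * r ^ T) +
        |F| * (W * (b * C) * r ^ T) := by
      rw [hK]; ring
    have h12 : W * (2 * b ^ 2 * S * W + (D1 + g T ∅ * F)) =
        2 * b ^ 2 * S * W ^ 2 + W * D1 + W * (g T ∅ * F) := by ring
    rw [h12] at h7
    rw [h11]
    linarith
  have hlim : Filter.Tendsto (fun T : ℕ => 2 * b ^ 2 * S * W ^ 2 + K * r ^ T) Filter.atTop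
      (nhds (2 * b ^ 2 * S * W ^ 2 + K * 0)) :=
    tendsto_const_nhds.add ((tendsto_pow_atTop_nhds_zero_of_lt_one hr0 hr1).const_mul K)
  have := ge_of_tendsto' hlim hmain
  rwa [mul_zero, add_zero] at this

end H37.IS
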