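import Pool.Agent.H37.IS.Stm

set_option autoImplicit false

namespace H37.IS

theorem BA4_proved : S_BA4 := by
  intro N j hj hjN hsq
  obtain ⟨i, rfl⟩ : ∃ i, j = i + 1 := ⟨j - 1, by omega⟩
  obtain ⟨r, rfl⟩ : ∃ r, N = i + 1 + r := ⟨N - (i + 1), by omega⟩
  -- `j = i + 1`, `N - j = r`
  have e1 := Nat.choose_succ_right_eq (i + 1 + r) (i + 1)
  have e2 := Nat.choose_succ_right_eq (i + 1 + r) i
  have e3 : i + 1 + r - (i + 1) = r := by omega
  have e4 : i + 1 + r - i = r + 1 := by omega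
  rw [e3] at e1
  rw [e4] at e2
  simp only [Nat.add_sub_cancel]
  set x := (i + 1 + r).choose (i + 1) with hx
  set u := (i + 1 + r).choose (i + 1 + 1) with hu
  set v := (i + 1 + r).choose i with hv
  -- u * (i + 2) = x * r, x * (i + 1) = v * (r + 1)
  have hu' : (u : ℤ) * (i + 2) = x * r := by exact_mod_cast (by simpa [add_assoc] using e1)
  have hv' : (v : ℤ) * (r + 1) = x * (i + 1) := by exact_mod_cast e2.symm
  have hD : (2 : ℤ) * (r - i - 1) ^ 2 ≤ i + 1 + r := by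
    have : ((i + 1 + r : ℕ) : ℤ) - 2 * ((i + 1 : ℕ) : ℤ) = r - i - 1 := by push_cast; ring
    rw [this] at hsq
    push_cast at hsq
    linarith
  have hx0 : (0 : ℤ) ≤ x := Int.natCast_nonneg _
  have hi0 : (0 : ℤ) ≤ i := Int.natCast_nonneg _
  have hr0 : (0 : ℤ) ≤ r := Int.natCast_nonneg _
  -- P = (i + 2) * (r + 1)
  have hP : (0 : ℤ) < (i + 2) * (r + 1) := by positivity
  have key : ((x : ℤ) + 2 * (i + 1 + r + 1) * (u + v)) * ((i + 2) * (r + 1)) ≤
      (2 * (i + 1 + r + 1) * (2 * x)) * ((i + 2) * (r + 1)) := by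
    have h1 : ((x : ℤ) + 2 * (i + 1 + r + 1) * (u + v)) * ((i + 2) * (r + 1)) =
        x * ((i + 2) * (r + 1) + 2 * (i + 1 + r + 1) * (r * (r + 1) + (i + 1) * (i + 2))) := by
      have h2 : (u : ℤ) * ((i + 2) * (r + 1)) = x * (r * (r + 1)) := by
        linear_combination (r + 1 : ℤ) * hu'
      have h3 : (v : ℤ) * ((i + 2) * (r + 1)) = x * ((i + 1) * (i + 2)) := by
        linear_combination (i + 2 : ℤ) * hv'
      linear_combination 2 * ((i : ℤ) + 1 + r + 1) * h2 + 2 * ((i : ℤ) + 1 + r + 1) * h3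
    rw [h1]
    have h4 : (2 * ((i : ℤ) + 1 + r + 1) * (2 * x)) * ((i + 2) * (r + 1)) =
        x * (4 * (i + 1 + r + 1) * ((i + 2) * (r + 1))) := by ring
    rw [h4]
    refine mul_le_mul_of_nonneg_left ?_ hx0
    nlinarith [hD, mul_nonneg hi0 hr0, sq_nonneg ((r : ℤ) - i - 1),
      mul_le_mul_of_nonneg_left hD (by positivity : (0 : ℤ) ≤ i + 1 + r + 1)]
  have := le_of_mul_le_mul_right key hP
  exact_mod_cast this

end H37.IS
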